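import Pool.Agent.H44.MS.Basics

/-!
# The lower bound for the least coordinate
-/

set_option autoImplicit false

namespace Pool.Agent.H95.MS

open Finset Real Pool.Agent.H44.MS

/-- The number `n` with a representation with small `x₃` is `m + w ^ 2` with `m` a sum of two
squares and `w` small. -/
theorem low_split (c : ℝ) (hc : 0 ≤ c) (N n : ℕ) (hn : n < N) :
    ic (∃ x₁ x₂ x₃ : ℤ, x₁ ^ 2 + x₂ ^ 2 + x₃ ^ 2 = n ∧ |(x₃ : ℝ)| ≤ c * √(Real.log n)) ≤
      ∑ w ∈ range (⌊c * √(Real.log N)⌋₊ + 1),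
        ic (w ^ 2 ≤ n ∧ ∃ a b : ℤ, a ^ 2 + b ^ 2 = ((n - w ^ 2 : ℕ) : ℤ)) := by
  by_cases h : ∃ x₁ x₂ x₃ : ℤ, x₁ ^ 2 + x₂ ^ 2 + x₃ ^ 2 = n ∧ |(x₃ : ℝ)| ≤ c * √(Real.log n)
  · rw [ic_pos h]
    obtain ⟨x₁, x₂, x₃, he, hx⟩ := h
    have hsq : ((x₃.natAbs : ℕ) : ℤ) ^ 2 = x₃ ^ 2 := Int.natAbs_sq x₃
    have hle : x₃.natAbs ^ 2 ≤ n := by
      have h1 : ((x₃.natAbs ^ 2 : ℕ) : ℤ) ≤ (n : ℤ) := by
        push_cast
        rw [sq_abs]
        nlinarith [sq_nonneg x₁, sq_nonneg x₂]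
      exact_mod_cast h1
    have hlog : Real.log n ≤ Real.log N := by
      rcases Nat.eq_zero_or_pos n with h0 | h0
      · subst h0
        simp only [Nat.cast_zero, Real.log_zero]
        exact Real.log_natCast_nonneg N
      · exact Real.log_le_log (by exact_mod_cast h0) (by exact_mod_cast hn.le)
    have hW : x₃.natAbs ∈ range (⌊c * √(Real.log N)⌋₊ + 1) := by
      rw [mem_range, Nat.lt_succ_iff]
      apply Nat.le_floor
      have h2 : ((x₃.natAbs : ℕ) : ℝ) = |(x₃ : ℝ)| := by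
        rw [Nat.cast_natAbs, Int.cast_abs]
      rw [h2]
      exact hx.trans (mul_le_mul_of_nonneg_left (Real.sqrt_le_sqrt hlog) hc)
    have hone : ic (x₃.natAbs ^ 2 ≤ n ∧
        ∃ a b : ℤ, a ^ 2 + b ^ 2 = ((n - x₃.natAbs ^ 2 : ℕ) : ℤ)) = 1 := by
      apply ic_pos
      refine ⟨hle, x₁, x₂, ?_⟩
      rw [Nat.cast_sub hle]
      push_cast
      rw [sq_abs]
      linarith
    rw [← hone]
    exact Finset.single_le_sum
      (f := fun w => ic (w ^ 2 ≤ n ∧ ∃ a b : ℤ, a ^ 2 + b ^ 2 = ((n - w ^ 2 : ℕ) : ℤ)))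
      (fun _ _ => ic_nonneg _) hW
  · rw [ic_neg h]
    exact Finset.sum_nonneg (fun _ _ => ic_nonneg _)

/-- For fixed `w` the number of `n < N` is at most the number of sums of two squares up to `N`. -/
theorem low_inner (N w : ℕ) :
    ∑ n ∈ range N, ic (w ^ 2 ≤ n ∧ ∃ a b : ℤ, a ^ 2 + b ^ 2 = ((n - w ^ 2 : ℕ) : ℤ)) ≤
      ∑ m ∈ Icc 0 N, ic (∃ a b : ℤ, a ^ 2 + b ^ 2 = (m : ℤ)) := by
  classical
  rw [← Finset.sum_filter_of_ne (s := range N) (p := fun n => w ^ 2 ≤ n)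
    (f := fun n => ic (w ^ 2 ≤ n ∧ ∃ a b : ℤ, a ^ 2 + b ^ 2 = ((n - w ^ 2 : ℕ) : ℤ)))
    (fun n _ hne => by
      by_contra hlt
      exact hne (ic_neg (fun h => hlt h.1)))]
  have hinj : Set.InjOn (fun n : ℕ => n - w ^ 2) ((range N).filter (fun n => w ^ 2 ≤ n) : Set ℕ) := by
    intro a ha b hb hab
    rw [Finset.mem_coe, Finset.mem_filter] at ha hb
    simp only at hab
    omega
  calc ∑ n ∈ (range N).filter (fun n => w ^ 2 ≤ n),
        ic (w ^ 2 ≤ n ∧ ∃ a b : ℤ, a ^ 2 + b ^ 2 = ((n - w ^ 2 : ℕ) : ℤ))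
      ≤ ∑ n ∈ (range N).filter (fun n => w ^ 2 ≤ n),
        ic (∃ a b : ℤ, a ^ 2 + b ^ 2 = ((n - w ^ 2 : ℕ) : ℤ)) := by
        apply Finset.sum_le_sum
        intro n _
        rw [ic_and]
        exact mul_le_of_le_one_left (ic_nonneg _) (ic_le_one _)
    _ = ∑ m ∈ ((range N).filter (fun n => w ^ 2 ≤ n)).image (fun n : ℕ => (n - w ^ 2 : ℕ)),
        ic (∃ a b : ℤ, a ^ 2 + b ^ 2 = ((m : ℕ) : ℤ)) := by
        rw [Finset.sum_image hinj]
    _ ≤ ∑ m ∈ Icc 0 N, ic (∃ a b : ℤ, a ^ 2 + b ^ 2 = (m : ℤ)) := by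
        apply Finset.sum_le_sum_of_subset_of_nonneg
        · intro m hm
          rw [Finset.mem_image] at hm
          obtain ⟨n, hn, rfl⟩ := hm
          rw [Finset.mem_filter, mem_range] at hn
          rw [Finset.mem_Icc]
          omega
        · intro _ _ _
          exact ic_nonneg _

/-- **LOW**: the lower bound for the least coordinate. -/
theorem pf_LOW (h : T_S2) : T_LOW := by
  obtain ⟨C, hC, hS⟩ := h
  intro ε hε
  obtain ⟨N₀, hN₀⟩ := exists_nat_ge (Real.exp ((2 * C / ε) ^ 2 + 1))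
  refine ⟨ε / (2 * C), by positivity, max N₀ 2, fun N hN => ?_⟩
  have hN2 : 2 ≤ N := (le_max_right _ _).trans hN
  have hNN : N₀ ≤ N := (le_max_left _ _).trans hN
  have hNpos : (0 : ℝ) < N := by exact_mod_cast (by omega : 0 < N)
  have hlog : (2 * C / ε) ^ 2 + 1 ≤ Real.log N := by
    rw [Real.le_log_iff_exp_le hNpos]
    exact hN₀.trans (by exact_mod_cast hNN)
  have hsq : 2 * C / ε ≤ √(Real.log N) := by
    apply Real.le_sqrt_of_sq_le
    linarith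
  have hspos : 0 < √(Real.log N) := lt_of_lt_of_le (by positivity) hsq
  set S : ℝ := √(Real.log N) with hSdef
  have hc0 : 0 ≤ ε / (2 * C) := by positivity
  calc ∑ n ∈ range N, ic (∃ x₁ x₂ x₃ : ℤ, x₁ ^ 2 + x₂ ^ 2 + x₃ ^ 2 = n ∧
        |(x₃ : ℝ)| ≤ ε / (2 * C) * √(Real.log n))
      ≤ ∑ n ∈ range N, ∑ w ∈ range (⌊ε / (2 * C) * S⌋₊ + 1),
        ic (w ^ 2 ≤ n ∧ ∃ a b : ℤ, a ^ 2 + b ^ 2 = ((n - w ^ 2 : ℕ) : ℤ)) :=
        Finset.sum_le_sum (fun n hn => low_split _ hc0 N n (mem_range.1 hn))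
    _ = ∑ w ∈ range (⌊ε / (2 * C) * S⌋₊ + 1), ∑ n ∈ range N,
        ic (w ^ 2 ≤ n ∧ ∃ a b : ℤ, a ^ 2 + b ^ 2 = ((n - w ^ 2 : ℕ) : ℤ)) := Finset.sum_comm
    _ ≤ ∑ w ∈ range (⌊ε / (2 * C) * S⌋₊ + 1), C * N / S :=
        Finset.sum_le_sum (fun w _ => (low_inner N w).trans (hS N hN2))
    _ = ((⌊ε / (2 * C) * S⌋₊ : ℝ) + 1) * (C * N / S) := by
        rw [Finset.sum_const, card_range, nsmul_eq_mul]
        push_cast
        ring
    _ ≤ (ε / (2 * C) * S + 1) * (C * N / S) := by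
        apply mul_le_mul_of_nonneg_right _ (by positivity)
        have := Nat.floor_le (show 0 ≤ ε / (2 * C) * S by positivity)
        linarith
    _ = ε / 2 * N + (C / S) * N := by
        field_simp
    _ ≤ ε / 2 * N + ε / 2 * N := by
        have h1 : C / S ≤ ε / 2 := by
          rw [div_le_iff₀ hspos]
          have h2 : ε / 2 * (2 * C / ε) ≤ ε / 2 * S :=
            mul_le_mul_of_nonneg_left hsq (by positivity)
          have h3 : ε / 2 * (2 * C / ε) = C := by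
            field_simp
          linarith
        have h4 := mul_le_mul_of_nonneg_right h1 hNpos.le
        linarith
    _ = ε * N := by ring

end Pool.Agent.H95.MS
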